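import Pool.Agent.helper13.RF.SpecT

/-!
# Project RF (MP_16912e_nt), row TTP: the number of types
-/

set_option autoImplicit false

namespace Pool.Agent.RF

open NumberField

theorem TTP_mem {F : Type} [Field F] [NumberField F] {g : ℕ} (hg : g ≠ 0) {P : Ideal (𝓞 F)} :
    P ∈ QP F g ↔ P.IsPrime ∧ (g : 𝓞 F) ∈ P := by
  classical
  unfold QP
  have h0 : Ideal.span {(g : 𝓞 F)} ≠ ⊥ := by
    rw [Ne, Ideal.span_singleton_eq_bot]
    exact_mod_cast hg
  rw [Multiset.mem_toFinset, Ideal.mem_normalizedFactors_iff h0, Ideal.span_singleton_le_iff_mem]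

theorem TTP_prime {R : Type} [CommRing R] {P : Ideal R} (hP : P.IsPrime) (g : ℕ) : g ≠ 0 → (g : R) ∈ P → ∃ l : ℕ, l.Prime ∧ l ∣ g ∧ (l : R) ∈ P := by
  induction g using induction_on_primes with
  | zero => exact fun h => absurd rfl h
  | one =>
    intro _ h
    rw [Nat.cast_one] at h
    exact absurd ((Ideal.eq_top_iff_one P).2 h) hP.ne_top
  | prime_mul p a hp ih =>
    intro h0 h
    rw [Nat.cast_mul] at h
    rcases hP.mem_or_mem h with h | h
    · exact ⟨p, hp, Dvd.intro _ rfl, h⟩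
    · obtain ⟨l, h1, h2, h3⟩ := ih (right_ne_zero_of_mul h0) h
      exact ⟨l, h1, h2.mul_left p, h3⟩

theorem TTP_cop {R : Type} [CommRing R] {P : Ideal R} (hP : P.IsPrime) {a b : ℕ} (hab : a.Coprime b) (ha : (a : R) ∈ P) : (b : R) ∉ P := by
  intro hb
  obtain ⟨u, v, huv⟩ := (Nat.isCoprime_iff_coprime.2 hab)
  have h1 : (u : R) * (a : R) + (v : R) * (b : R) = 1 := by exact_mod_cast congrArg (Int.cast : ℤ → R) huv
  have h2 : (1 : R) ∈ P := by
    rw [← h1]
    exact P.add_mem (P.mul_mem_left _ ha) (P.mul_mem_left _ hb)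
  exact hP.ne_top ((Ideal.eq_top_iff_one P).2 h2)

theorem TTP_pow (hVVM : VVM_stmt) {F : Type} [Field F] [NumberField F] {P : Ideal (𝓞 F)} (hP : P.IsPrime) (hP0 : P ≠ ⊥) {x : 𝓞 F} (hx : x ≠ 0)
    (k : ℕ) (hk : 0 < k) : vv P (x ^ k) = k * vv P x := by
  induction k, hk using Nat.le_induction with
  | base => rw [pow_one]; exact (one_mul _).symm
  | succ n hn ih =>
    rw [pow_succ, (hVVM F P hP hP0).1 _ _ (pow_ne_zero _ hx) hx, ih]
    ring

theorem TTP (h1 : TPQ_stmt) (h2 : VVM_stmt) : TTP_stmt := by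
  classical
  intro F _ _ hF g hg
  have hg0 : g ≠ 0 := hg.ne'
  -- the primes above `g`
  have hU : QP F g = g.primeFactors.biUnion fun l => QP F l := by
    ext P
    rw [TTP_mem hg0, Finset.mem_biUnion]
    constructor
    · rintro ⟨hP, hgP⟩
      obtain ⟨l, hl, hlg, hlP⟩ := TTP_prime hP g hg0 hgP
      exact ⟨l, Nat.mem_primeFactors.2 ⟨hl, hlg, hg0⟩, (TTP_mem hl.ne_zero).2 ⟨hP, hlP⟩⟩
    · rintro ⟨l, hl, hP⟩
      obtain ⟨hl, hlg, -⟩ := Nat.mem_primeFactors.1 hl
      obtain ⟨hP, hlP⟩ := (TTP_mem hl.ne_zero).1 hP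
      refine ⟨hP, ?_⟩
      obtain ⟨k, rfl⟩ := hlg
      rw [Nat.cast_mul]
      exact P.mul_mem_right _ hlP
  have hdisj : (g.primeFactors : Set ℕ).PairwiseDisjoint fun l => QP F l := by
    intro l hl l' hl' hne
    have hl := (Nat.mem_primeFactors.1 (Finset.mem_coe.1 hl)).1
    have hl' := (Nat.mem_primeFactors.1 (Finset.mem_coe.1 hl')).1
    rw [Function.onFun, Finset.disjoint_left]
    intro P hP hP'
    obtain ⟨hPp, hlP⟩ := (TTP_mem hl.ne_zero).1 hP
    obtain ⟨-, hlP'⟩ := (TTP_mem hl'.ne_zero).1 hP'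
    exact TTP_cop hPp ((Nat.coprime_primes hl hl').2 hne) hlP hlP'
  rw [hU, Finset.prod_biUnion hdisj]
  -- one prime number
  have hone : ∀ l ∈ g.primeFactors, ∏ P ∈ QP F l, (5 * (14 * vv P (g : 𝓞 F) + 1)) ≤ (285 * (g.factorization l + 1)) ^ 4 := by
    intro l hl
    obtain ⟨hl, hlg, -⟩ := Nat.mem_primeFactors.1 hl
    have hc : 0 < g.factorization l := hl.factorization_pos_of_dvd hg0 hlg
    obtain ⟨hcard, hv⟩ := h1 F hF l hl
    have hw : ∀ P ∈ QP F l, 5 * (14 * vv P (g : 𝓞 F) + 1) ≤ 285 * (g.factorization l + 1) := by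
      intro P hP
      obtain ⟨hPp, hlP⟩ := (TTP_mem hl.ne_zero).1 hP
      have hl0 : (l : 𝓞 F) ≠ 0 := by exact_mod_cast hl.ne_zero
      have hP0 : P ≠ ⊥ := by
        rintro rfl
        exact hl0 ((Ideal.mem_bot).1 hlP)
      have hg' : l ^ g.factorization l * (g / l ^ g.factorization l) = g := Nat.ordProj_mul_ordCompl_eq_self g l
      have hq0 : g / l ^ g.factorization l ≠ 0 := (Nat.ordCompl_pos l hg0).ne'
      have hq0' : ((g / l ^ g.factorization l : ℕ) : 𝓞 F) ≠ 0 := by exact_mod_cast hq0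
      have hcop : l.Coprime (g / l ^ g.factorization l) := Nat.coprime_ordCompl hl hg0
      have hqP : ((g / l ^ g.factorization l : ℕ) : 𝓞 F) ∉ P := TTP_cop hPp hcop hlP
      have hV := h2 F P hPp hP0
      have hvq : vv P ((g / l ^ g.factorization l : ℕ) : 𝓞 F) = 0 := by
        by_contra hne
        exact hqP ((hV.2.1 _ hq0').1 (Nat.pos_of_ne_zero hne))
      have hvg : vv P (g : 𝓞 F) = g.factorization l * vv P (l : 𝓞 F) := by
        have e : (g : 𝓞 F) = (l : 𝓞 F) ^ g.factorization l * ((g / l ^ g.factorization l : ℕ) : 𝓞 F) := by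
          rw [← Nat.cast_pow, ← Nat.cast_mul, hg']
        rw [e, hV.1 _ _ (pow_ne_zero _ hl0) hq0', hvq, add_zero, TTP_pow h2 hPp hP0 hl0 _ hc]
      rw [hvg]
      have h4 := hv P hP
      have h5 : g.factorization l * vv P (l : 𝓞 F) ≤ g.factorization l * 4 := Nat.mul_le_mul_left _ h4
      omega
    calc ∏ P ∈ QP F l, (5 * (14 * vv P (g : 𝓞 F) + 1)) ≤ ∏ P ∈ QP F l, (285 * (g.factorization l + 1)) :=
          Finset.prod_le_prod' hw
      _ = (285 * (g.factorization l + 1)) ^ (QP F l).card := by rw [Finset.prod_const]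
      _ ≤ (285 * (g.factorization l + 1)) ^ 4 := Nat.pow_le_pow_right (by omega) hcard
  refine (Finset.prod_le_prod' hone).trans (le_of_eq ?_)
  rw [Nat.card_divisors hg0, Finset.prod_pow, Finset.prod_mul_distrib, Finset.prod_const, mul_pow, ← pow_mul, mul_comm g.primeFactors.card 4]

end Pool.Agent.RF
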